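import Pool.Agent.PLX.StmtsB

/-!
# Squad PLX, row FNL (helper39)

Many short vectors with the same multipliers give a rich line.
-/

set_option autoImplicit false

namespace Pool.Agent.PLX.H39

open Module

/-- the combinations with natural coefficients are different -/
theorem comb_inj {e : ℕ} {μ : Fin e → ℝ} (hμ : LinearIndependent ℚ μ) {u : ℂ} (hu : u ≠ 0)
    {a b : Fin e → ℕ}
    (h : ∑ i, ((a i : ℕ) : ℂ) * (((μ i : ℝ) : ℂ) * u) = ∑ i, ((b i : ℕ) : ℂ) * (((μ i : ℝ) : ℂ) * u)) :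
    a = b := by
  have h1 : (∑ i, ((a i : ℕ) : ℂ) * ((μ i : ℝ) : ℂ)) * u
      = (∑ i, ((b i : ℕ) : ℂ) * ((μ i : ℝ) : ℂ)) * u := by
    rw [Finset.sum_mul, Finset.sum_mul]
    simp only [mul_assoc]
    exact h
  have h2 := mul_right_cancel₀ hu h1
  have h3 : (∑ i, ((a i : ℕ) : ℝ) * μ i) = ∑ i, ((b i : ℕ) : ℝ) * μ i := by
    have h4 : ((∑ i, ((a i : ℕ) : ℝ) * μ i : ℝ) : ℂ) = ((∑ i, ((b i : ℕ) : ℝ) * μ i : ℝ) : ℂ) := by
      push_cast
      exact h2
    exact_mod_cast h4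
  have h5 : ∑ i, ((a i : ℚ) - (b i : ℚ)) • μ i = 0 := by
    have h6 : ∀ i, ((a i : ℚ) - (b i : ℚ)) • μ i = ((a i : ℕ) : ℝ) * μ i - ((b i : ℕ) : ℝ) * μ i := by
      intro i
      rw [Rat.smul_def]
      push_cast
      ring
    rw [Finset.sum_congr rfl fun i _ => h6 i, Finset.sum_sub_distrib, h3, sub_self]
  funext i
  have h7 := (Fintype.linearIndependent_iff.1 hμ) _ h5 i
  have h8 : (a i : ℚ) = (b i : ℚ) := sub_eq_zero.1 h7
  exact_mod_cast h8

section pairs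

variable {A : Type} [AddCommGroup A] {E : Type} [NormedAddCommGroup E]

/-- the sizes of a vector and of its multiples at once -/
noncomputable def fpair (f : A →+ E) (e : ℕ) : (A × (Fin e → A)) →+ (E × (Fin e → E)) :=
  AddMonoidHom.mk' (fun p => (f p.1, fun i => f (p.2 i))) (by
    intro a b
    refine Prod.ext ?_ ?_
    · simp
    · funext i
      simp)

theorem fpair_le (f : A →+ E) {e : ℕ} {r : ℝ} (hr : 0 ≤ r) (p : A × (Fin e → A)) :
    ‖fpair f e p‖ ≤ r ↔ ‖f p.1‖ ≤ r ∧ ∀ i, ‖f (p.2 i)‖ ≤ r := by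
  have h : fpair f e p = (f p.1, fun i => f (p.2 i)) := rfl
  rw [h, norm_prod_le_iff, pi_norm_le_iff_of_nonneg hr]

/-- the group of the vectors with their multiples -/
def Gam (Φ : A →+ ℂ) (G : AddSubgroup A) {e : ℕ} (μ : Fin e → ℝ) :
    AddSubgroup (A × (Fin e → A)) where
  carrier := {p | p.1 ∈ G ∧ ∀ i, p.2 i ∈ G ∧ Φ (p.2 i) = ((μ i : ℝ) : ℂ) * Φ p.1}
  zero_mem' := ⟨G.zero_mem, fun i => ⟨G.zero_mem, by simp⟩⟩
  add_mem' := by
    rintro p q ⟨h1, h2⟩ ⟨h3, h4⟩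
    refine ⟨G.add_mem h1 h3, fun i => ⟨G.add_mem (h2 i).1 (h4 i).1, ?_⟩⟩
    rw [Prod.snd_add, Pi.add_apply, Prod.fst_add, map_add, map_add, (h2 i).2, (h4 i).2]
    ring
  neg_mem' := by
    rintro p ⟨h1, h2⟩
    refine ⟨G.neg_mem h1, fun i => ⟨G.neg_mem (h2 i).1, ?_⟩⟩
    rw [Prod.snd_neg, Pi.neg_apply, Prod.fst_neg, map_neg, map_neg, (h2 i).2]
    ring

theorem mem_Gam {Φ : A →+ ℂ} {G : AddSubgroup A} {e : ℕ} {μ : Fin e → ℝ}
    {p : A × (Fin e → A)} : p ∈ Gam Φ G μ ↔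
      p.1 ∈ G ∧ ∀ i, p.2 i ∈ G ∧ Φ (p.2 i) = ((μ i : ℝ) : ℂ) * Φ p.1 := Iff.rfl

theorem dsc_Gam {Φ : A →+ ℂ} {f : A →+ E} {G : AddSubgroup A} {e : ℕ} {μ : Fin e → ℝ}
    (h : Dsc f G) : Dsc (fpair f e) (Gam Φ G μ) := by
  intro r
  rcases lt_or_ge r 0 with hr | hr
  · refine Set.Finite.subset Set.finite_empty ?_
    rintro p ⟨-, hp⟩
    exact absurd hp (not_le.2 (lt_of_lt_of_le hr (norm_nonneg _)))
  · refine Set.Finite.subset ((h r).prod (Set.Finite.pi fun _ : Fin e => h r)) ?_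
    rintro p ⟨hp1, hp2⟩
    rw [fpair_le f hr] at hp2
    refine Set.mem_prod.2 ⟨⟨hp1.1, hp2.1⟩, ?_⟩
    rw [Set.mem_univ_pi]
    exact fun i => ⟨(hp1.2 i).1, hp2.2 i⟩

/-- the ball of radius `1` of the group of pairs -/
theorem cnt_Gam {Φ : A →+ ℂ} {f : A →+ E} {G : AddSubgroup A} {e : ℕ} {μ : Fin e → ℝ}
    (h : Dsc f G) (hP : Ppr Φ f G 2) : cnt (fpair f e) (Gam Φ G μ) 1 ≤ cnt f G 1 := by
  unfold cnt
  refine Finset.card_le_card_of_injOn (fun p => p.1) ?_ ?_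
  · intro p hp
    rw [Finset.mem_coe, mem_bl (dsc_Gam h), fpair_le f zero_le_one] at hp
    rw [Finset.mem_coe, mem_bl h]
    exact ⟨hp.1.1, hp.2.1⟩
  · intro p hp q hq hpq
    rw [Finset.mem_coe, mem_bl (dsc_Gam h), fpair_le f zero_le_one] at hp hq
    refine Prod.ext hpq ?_
    funext i
    have h1 : p.1 = q.1 := hpq
    have h2 := (hp.1.2 i).2
    have h3 := (hq.1.2 i).2
    have h4 : p.2 i - q.2 i = 0 := by
      refine hP _ (G.sub_mem (hp.1.2 i).1 (hq.1.2 i).1) ?_ ?_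
      · rw [map_sub]
        have h5 := norm_sub_le (f (p.2 i)) (f (q.2 i))
        have h6 := hp.2.2 i
        have h7 := hq.2.2 i
        linarith
      · rw [map_sub, h2, h3, h1, sub_self]
    exact sub_eq_zero.1 h4

end pairs

/-- row FNL -/
theorem fnl (hpkv : PkvStmt) (hgru : GruStmt) : FnlStmt := by
  classical
  intro A _ _ E _ _ Φ f G e μ X Q hD hfin hrk he hμ hQ hP hX hκQ hlarge hcard
  haveI := hfin
  have he0 : e ≠ 0 := by omega
  have heR : (1 : ℝ) ≤ e := by exact_mod_cast he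
  set κ : ℝ := 16 * ((e : ℝ) + 1) ^ 2 with hκ
  have hκ1 : 1 ≤ κ := by
    rw [hκ]
    nlinarith
  -- the root of `Q`
  obtain ⟨R, hR, hRe⟩ : ∃ R : ℝ, 0 < R ∧ R ^ e = Q :=
    ⟨Q ^ ((e : ℝ)⁻¹), Real.rpow_pos_of_pos hQ _, Real.rpow_inv_natCast_pow hQ.le he0⟩
  have hκR0 : 0 ≤ κ * R := by positivity
  have hκR : κ * R ≤ 1 := by
    have h1 : (κ * R) ^ e ≤ 1 ^ e := by
      rw [mul_pow, hRe, one_pow]
      exact hκQ
    exact le_of_pow_le_pow_left₀ he0 zero_le_one h1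
  have hR1 : R ≤ 1 := by nlinarith
  have hbig : (κ * R) ^ (2 * e + 1) * (cnt f G 1 : ℝ) < X.card := by
    have h1 : ((κ * R) ^ (2 * e + 1) * (cnt f G 1 : ℝ)) ^ e < (X.card : ℝ) ^ e := by
      have h2 : ((κ * R) ^ (2 * e + 1) * (cnt f G 1 : ℝ)) ^ e
          = (κ ^ e * Q) ^ (2 * e + 1) * (cnt f G 1 : ℝ) ^ e := by
        rw [← hRe, ← mul_pow κ R e, mul_pow, ← pow_mul, ← pow_mul, mul_comm (2 * e + 1) e]
      rw [h2]
      exact hlarge
    exact lt_of_pow_lt_pow_left₀ _ (Nat.cast_nonneg _) h1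
  -- the root of the number of elements
  have hn0 : (0 : ℝ) < X.card := lt_trans (by positivity) hcard
  have h2e : 2 * e ≠ 0 := by omega
  obtain ⟨N, hN0, hNe⟩ : ∃ N : ℝ, 0 < N ∧ N ^ (2 * e) = X.card := by
    refine ⟨(X.card : ℝ) ^ (((2 * e : ℕ) : ℝ)⁻¹), Real.rpow_pos_of_pos hn0 _, ?_⟩
    exact Real.rpow_inv_natCast_pow hn0.le h2e
  have hN2 : 2 < N := by
    rw [← hNe] at hcard
    exact lt_of_pow_lt_pow_left₀ _ hN0.le hcard
  -- the multiples
  have hX' : ∀ x : A, ∃ y : Fin e → A, x ∈ X → ∀ i, y i ∈ G ∧ Φ (y i) = ((μ i : ℝ) : ℂ) * Φ x ∧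
      ‖f (y i)‖ ≤ R := by
    intro x
    by_cases hx : x ∈ X
    · have h1 := (hX x hx).2.2
      choose y hy1 hy2 hy3 using h1
      refine ⟨y, fun _ i => ⟨hy1 i, hy2 i, ?_⟩⟩
      have h2 := hy3 i
      rw [← hRe] at h2
      exact le_of_pow_le_pow_left₀ he0 hR.le h2
    · exact ⟨fun _ => 0, fun h => absurd h hx⟩
  choose y hy using hX'
  have hxR : ∀ x ∈ X, ‖f x‖ ≤ R := by
    intro x hx
    have h2 := (hX x hx).2.1
    rw [← hRe] at h2
    exact le_of_pow_le_pow_left₀ he0 hR.le h2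
  have hD' : Dsc (fpair f e) (Gam Φ G μ) := dsc_Gam hD
  let F : A → A × (Fin e → A) := fun x => (x, y x)
  have hFinj : Function.Injective F := fun a b h => congrArg Prod.fst h
  have hFmem : ∀ p ∈ X.image F, p ∈ bl (fpair f e) (Gam Φ G μ) R := by
    intro p hp
    obtain ⟨x, hx, rfl⟩ := Finset.mem_image.1 hp
    rw [mem_bl hD', fpair_le f hR.le]
    exact ⟨⟨(hX x hx).1, fun i => ⟨(hy x hx i).1, (hy x hx i).2.1⟩⟩, hxR x hx,
      fun i => (hy x hx i).2.2⟩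
  have hFcard : (X.image F).card = X.card := Finset.card_image_of_injective _ hFinj
  -- the rank
  set k := finrank ℚ (bs (fpair f e) (Gam Φ G μ) R) with hk
  have hkA : k ≤ (e + 1) * (2 * e) := by
    have h1 : k ≤ finrank ℚ (A × (Fin e → A)) := Submodule.finrank_le _
    have h2 : finrank ℚ (A × (Fin e → A)) = (e + 1) * finrank ℚ A := by
      rw [Module.finrank_prod, Module.finrank_pi_fintype, Finset.sum_const, Finset.card_univ,
        Fintype.card_fin, smul_eq_mul]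
      ring
    rw [h2] at h1
    exact h1.trans (Nat.mul_le_mul_left _ hrk)
  have hkR : (k : ℝ) ≤ ((e : ℝ) + 1) * (2 * e) := by exact_mod_cast hkA
  have hcntle : (X.card : ℝ) ≤ (κ * R) ^ k * cnt f G 1 := by
    have h1 := hgru (A × (Fin e → A)) (E × (Fin e → E)) (fpair f e) (Gam Φ G μ) k R R 1 hD' hR
      le_rfl (by
        have h2 : 8 * ((k : ℝ) + 1) ≤ κ := by
          rw [hκ]
          nlinarith
        calc 8 * ((k : ℝ) + 1) * R ≤ κ * R := mul_le_mul_of_nonneg_right h2 hR.le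
          _ ≤ 1 := hκR) hk.symm le_rfl
    rw [one_pow, one_mul] at h1
    have h3 : (X.card : ℝ) ≤ cnt (fpair f e) (Gam Φ G μ) R := by
      rw [← hFcard]
      exact_mod_cast Finset.card_le_card hFmem
    refine h3.trans (h1.trans ?_)
    have h4 : 4 * ((k : ℝ) + 2) ≤ κ := by
      rw [hκ]
      nlinarith
    have h5 : (4 * ((k : ℝ) + 2) * R) ^ k ≤ (κ * R) ^ k :=
      pow_le_pow_left₀ (by positivity) (mul_le_mul_of_nonneg_right h4 hR.le) k
    have h6 : (cnt (fpair f e) (Gam Φ G μ) 1 : ℝ) ≤ cnt f G 1 := by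
      exact_mod_cast cnt_Gam hD hP
    exact mul_le_mul h5 h6 (Nat.cast_nonneg _) (by positivity)
  have hk2 : k ≤ 2 * e := by
    by_contra hcon
    push Not at hcon
    have h1 : (κ * R) ^ k ≤ (κ * R) ^ (2 * e + 1) := pow_le_pow_of_le_one hκR0 hκR hcon
    have h2 : (κ * R) ^ k * (cnt f G 1 : ℝ) ≤ (κ * R) ^ (2 * e + 1) * cnt f G 1 :=
      mul_le_mul_of_nonneg_right h1 (Nat.cast_nonneg _)
    linarith
  -- two close elements
  have hρ : 0 < 4 * R / N := by positivity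
  obtain ⟨x, hx, x', hx', hxx, hclose⟩ : ∃ x ∈ X, ∃ x' ∈ X, x ≠ x' ∧
      ‖fpair f e (F x - F x')‖ < 4 * R / N := by
    by_contra hcon
    push Not at hcon
    have hfd : FiniteDimensional ℚ (bs (fpair f e) (Gam Φ G μ) R) := inferInstance
    have h1 := hpkv (A × (Fin e → A)) (E × (Fin e → E)) (fpair f e)
      (bs (fpair f e) (Gam Φ G μ) R) hfd (X.image F) (4 * R / N) R hρ hR.le
      (fun p hp => by
        have h2 := hFmem p hp
        exact ⟨Submodule.subset_span h2, ((mem_bl hD').1 h2).2⟩)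
      (fun p hp q hq hpq => by
        obtain ⟨a, ha, rfl⟩ := Finset.mem_image.1 hp
        obtain ⟨b, hb, rfl⟩ := Finset.mem_image.1 hq
        exact hcon a ha b hb fun h => hpq (by rw [h]))
    have h2 : 1 + 2 * R / (4 * R / N) = 1 + N / 2 := by
      field_simp
      ring
    rw [h2, hFcard] at h1
    have h3 : (1 + N / 2) ^ finrank ℚ (bs (fpair f e) (Gam Φ G μ) R) ≤ (1 + N / 2) ^ (2 * e) :=
      pow_le_pow_right₀ (by linarith) hk2
    have h4 : (1 + N / 2) ^ (2 * e) < N ^ (2 * e) :=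
      pow_lt_pow_left₀ (by linarith) (by linarith) h2e
    rw [hNe] at h4
    linarith
  set ρ := 4 * R / N with hρdef
  have hclose' := (fpair_le f hρ.le (F x - F x')).1 hclose.le
  have hu0 : x - x' ≠ 0 := sub_ne_zero.2 hxx
  set z := Φ (x - x') with hz
  have hz0 : z ≠ 0 := by
    intro h0
    refine hu0 (hP _ (G.sub_mem (hX x hx).1 (hX x' hx').1) ?_ h0)
    rw [map_sub]
    have h5 := norm_sub_le (f x) (f x')
    have h6 := hxR x hx
    have h7 := hxR x' hx'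
    linarith
  let u : Fin e → A := fun i => y x i - y x' i
  have huG : ∀ i, u i ∈ G := fun i => G.sub_mem (hy x hx i).1 (hy x' hx' i).1
  have hΦu : ∀ i, Φ (u i) = ((μ i : ℝ) : ℂ) * z := by
    intro i
    change Φ (y x i - y x' i) = _
    rw [map_sub, (hy x hx i).2.1, (hy x' hx' i).2.1, hz, map_sub]
    ring
  have hsz : ∀ i, ‖f (u i)‖ ≤ ρ := fun i => hclose'.2 i
  -- the number of multiples
  set m := ⌊1 / (e * ρ)⌋₊ with hm
  have hm1 : (m : ℝ) ≤ 1 / (e * ρ) := Nat.floor_le (by positivity)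
  have hm2 : 1 / (e * ρ) < (m : ℝ) + 1 := Nat.lt_floor_add_one _
  have hDz : Dsc f (lz Φ G z) := hD.lz z
  have hΦs : ∀ a : Fin e → Fin (m + 1), Φ (∑ i, ((a i : ℕ)) • u i)
      = ∑ i, ((a i : ℕ) : ℂ) * (((μ i : ℝ) : ℂ) * z) := by
    intro a
    rw [map_sum]
    refine Finset.sum_congr rfl fun i _ => ?_
    rw [map_nsmul, hΦu, nsmul_eq_mul]
  have hcnt : (m + 1) ^ e ≤ cnt f (lz Φ G z) 1 := by
    have h1 : Fintype.card (Fin e → Fin (m + 1)) = (m + 1) ^ e := by simp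
    rw [← h1, ← Finset.card_univ]
    unfold cnt
    refine Finset.card_le_card_of_injOn
      (fun a : Fin e → Fin (m + 1) => ∑ i, ((a i : ℕ)) • u i) ?_ ?_
    · intro a _
      rw [Finset.mem_coe, mem_bl hDz]
      constructor
      · refine mem_lz.2 ⟨AddSubgroup.sum_mem _ fun i _ => G.nsmul_mem (huG i) _, ?_⟩
        refine ⟨∑ i, ((a i : ℕ) : ℝ) * μ i, ?_⟩
        rw [hΦs a]
        push_cast
        rw [Finset.sum_mul]
        exact Finset.sum_congr rfl fun i _ => by ring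
      · rw [map_sum]
        refine (norm_sum_le _ _).trans ?_
        have h2 : ∀ i ∈ (Finset.univ : Finset (Fin e)),
            ‖f (((a i : ℕ)) • u i)‖ ≤ (m : ℝ) * ρ := by
          intro i _
          rw [norm_f_nat]
          have h3 : ((a i : ℕ) : ℝ) ≤ m := by exact_mod_cast Nat.lt_succ_iff.1 (a i).2
          exact mul_le_mul h3 (hsz i) (norm_nonneg _) (Nat.cast_nonneg _)
        refine (Finset.sum_le_sum h2).trans ?_
        rw [Finset.sum_const, Finset.card_univ, Fintype.card_fin, nsmul_eq_mul]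
        have h4 : (e : ℝ) * (m * ρ) = m * (e * ρ) := by ring
        rw [h4]
        have h5 : (0 : ℝ) < e * ρ := by positivity
        calc (m : ℝ) * (e * ρ) ≤ 1 / (e * ρ) * (e * ρ) := mul_le_mul_of_nonneg_right hm1 h5.le
          _ = 1 := by field_simp
    · intro a _ b _ hab
      have h5 : Φ (∑ i, ((a i : ℕ)) • u i) = Φ (∑ i, ((b i : ℕ)) • u i) := congrArg Φ hab
      rw [hΦs a, hΦs b] at h5
      have h6 := comb_inj hμ hz0 (a := fun i => (a i : ℕ)) (b := fun i => (b i : ℕ)) h5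
      funext i
      exact Fin.ext (congrFun h6 i)
  have hcnt' : (1 / (e * ρ)) ^ e ≤ (cnt f (lz Φ G z) 1 : ℝ) := by
    have h1 : ((m + 1 : ℕ) : ℝ) ^ e ≤ (cnt f (lz Φ G z) 1 : ℝ) := by exact_mod_cast hcnt
    refine le_trans ?_ h1
    have h2 : (0 : ℝ) ≤ 1 / (e * ρ) := by positivity
    push_cast
    exact pow_le_pow_left₀ h2 hm2.le e
  refine ⟨z, hz0, ?_⟩
  have h7 : ((1 / (e * ρ)) ^ e) ^ 2 ≤ (cnt f (lz Φ G z) 1 : ℝ) ^ 2 :=
    pow_le_pow_left₀ (by positivity) hcnt' 2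
  have h8 : (X.card : ℝ) = (4 * e) ^ (2 * e) * Q ^ 2 * ((1 / (e * ρ)) ^ e) ^ 2 := by
    rw [← hNe, ← hRe, ← pow_mul, ← pow_mul, hρdef, mul_comm e 2, ← mul_pow, ← mul_pow]
    have h9 : 4 * (e : ℝ) * R * (1 / (e * (4 * R / N))) = N := by
      field_simp
    rw [h9]
  rw [h8]
  exact mul_le_mul_of_nonneg_left h7 (by positivity)

end Pool.Agent.PLX.H39
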